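import Pool.Agent.Run7.h219.HP.End5
import Pool.Agent.Run7.h811.WQ.NecA2

/-!
Uniqueness of very weak solutions in `L²((0, T); L^∞)`, part 1: at almost every time the Fourier
coefficients of the solution are those of the distribution `cE`.
-/

set_option autoImplicit false

open MeasureTheory Set Filter Topology
open scoped ContDiff ENNReal ComplexConjugate

namespace Pool.Agent.Run7.h219.UQ

open H459R3.NS Pool.Agent.Run7.h782 Pool.Agent.Run7.h782.GD Pool.Agent.Run7.h782.GS
open Pool.Agent.Run7.h782.WS Pool.Agent.Run7.h782.WQ Pool.Agent.Run7.h744.WS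
open Pool.Agent.Run7.h969.WS Pool.Agent.Run7.h219.OS Pool.Agent.Run7.h219.HP
open Pool.Agent.Run7.h782.OS Run7.h475.WS

variable {ν T : ℝ} {c : Cf} {u : ℝ → V → V}

theorem slice_int {w : ℝ × V → ℝ} (hw : IntegrableOn w (Ioo 0 T ×ˢ cube)) :
    IntegrableOn (fun s => ∫ x in cube, w (s, x)) (Ioo 0 T) := by
  rw [IntegrableOn, Measure.volume_eq_prod, ← Measure.prod_restrict] at hw
  exact hw.integral_prod_left

theorem slice_ae {w : ℝ × V → ℝ} (hw : IntegrableOn w (Ioo 0 T ×ˢ cube)) :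
    ∀ᵐ s ∂(volume.restrict (Ioo 0 T)), IntegrableOn (fun x => w (s, x)) cube := by
  rw [IntegrableOn, Measure.volume_eq_prod, ← Measure.prod_restrict] at hw
  exact hw.prod_right_ae

theorem slice_eq {w : ℝ × V → ℝ} (hw : IntegrableOn w (Ioo 0 T ×ˢ cube)) {t : ℝ} (ht : t ≤ T) :
    ∫ z in Ioo 0 t ×ˢ cube, w z = ∫ s in Ioo 0 t, ∫ x in cube, w (s, x) := by
  have h1 : IntegrableOn w (Ioo 0 t ×ˢ cube) :=
    hw.mono_set (prod_mono (Ioo_subset_Ioo_right ht) le_rfl)
  rw [IntegrableOn, Measure.volume_eq_prod, ← Measure.prod_restrict] at h1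
  rw [Measure.volume_eq_prod, ← Measure.prod_restrict, integral_prod _ h1]

theorem ii_of {f : ℝ → ℝ} (hf : IntegrableOn f (Ioo 0 T)) {t : ℝ} (ht : t ∈ Icc 0 T) :
    IntervalIntegrable f volume 0 t := by
  rw [intervalIntegrable_iff_integrableOn_Ioo_of_le ht.1]
  exact hf.mono_set (Ioo_subset_Ioo_right ht.2)

theorem prim_ae {f : ℝ → ℝ} (hT : 0 < T) (hf : IntegrableOn f (Ioo 0 T)) :
    ∀ᵐ t ∂(volume.restrict (Ioo 0 T)), HasDerivAt (fun t => ∫ s in (0 : ℝ)..t, f s) (f t) t := by
  have h1 := (ii_of hf (right_mem_Icc.2 hT.le)).ae_hasDerivAt_integral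
  rw [ae_restrict_iff' measurableSet_Ioo]
  filter_upwards [h1] with t h2 ht
  exact h2 (by rw [uIcc_of_le hT.le]; exact ⟨ht.1.le, ht.2.le⟩) 0 left_mem_uIcc

theorem io {f : ℝ → ℝ} {t : ℝ} (ht : 0 ≤ t) : ∫ s in Ioo 0 t, f s = ∫ s in (0 : ℝ)..t, f s := by
  rw [intervalIntegral.integral_of_le ht, integral_Ioc_eq_integral_Ioo]

/-- Functions with known primitives. -/
theorem ae_of_prim {f F F' : ℝ → ℝ} (hT : 0 < T) (hf : IntegrableOn f (Ioo 0 T))
    (h1 : ∀ t ∈ Ioo 0 T, ∫ s in Ioo 0 t, f s = F t)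
    (h2 : ∀ᵐ t ∂(volume.restrict (Ioo 0 T)), HasDerivAt F (F' t) t) :
    ∀ᵐ t ∂(volume.restrict (Ioo 0 T)), f t = F' t := by
  filter_upwards [prim_ae hT hf, h2, ae_restrict_mem measurableSet_Ioo] with t h3 h4 ht
  have h5 : F =ᶠ[𝓝 t] fun t => ∫ s in (0 : ℝ)..t, f s := by
    filter_upwards [Ioo_mem_nhds ht.1 ht.2] with r hr
    rw [← h1 r hr, io hr.1.le]
  exact h3.unique (h4.congr_of_eventuallyEq h5.symm)

/-- The pairing of the solution at almost every time. -/
theorem pair_ae (hT : 0 < T) (hc : Dis c) (hV : VW ν T c u) {φ : V → V} (hφ : ContDiff ℝ ∞ φ)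
    (hp : Per φ) (hd : ∀ x, ∑ i, pd i (fun y => φ y i) x = 0) :
    ∀ᵐ s ∂(volume.restrict (Ioo 0 T)), ∫ x in cube, ∑ i, u s x i * φ x i
      = ∑ i, pr (cE ν s c u) i (fun x => φ x i) := by
  obtain ⟨i1, i2⟩ := wk_ints (ν := ν) hV.meas hV.sq hφ hp
  set f : ℝ → ℝ := fun s => ∫ x in cube, ∑ i, u s x i * φ x i with hf
  set g : ℝ → ℝ := fun s => ∫ x in cube, gg ν u φ (s, x) with hg
  have hfi : IntegrableOn f (Ioo 0 T) := slice_int i1
  have hgi : IntegrableOn g (Ioo 0 T) := slice_int i2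
  have i3 : IntegrableOn (fun z : ℝ × V => z.1 * gg ν u φ z) (Ioo 0 T ×ˢ cube) := by
    refine (mul_int (ψ := fun z : ℝ × V => z.1) i2 continuous_fst).congr ?_
    exact Eventually.of_forall fun z => mul_comm _ _
  have hsg : ∀ s, ∫ x in cube, (s, x).1 * gg ν u φ (s, x) = s * g s := fun s => by
    rw [hg]
    exact integral_const_mul _ _
  have hsgi : IntegrableOn (fun s => s * g s) (Ioo 0 T) := by
    have := slice_int i3
    simpa only [hsg] using this
  set P : ℝ := ∑ i, pr c i (fun x => φ x i) with hP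
  set h : ℝ → ℝ := fun t => ∑ i, pr (cE ν t c u) i (fun x => φ x i) with hh
  have e1 : ∀ t ∈ Ioo 0 T, h t = P + ∫ s in (0 : ℝ)..t, g s := by
    intro t ht
    have := pair_end hc (vw_mono hV ht.2.le) hφ hp hd
    rw [slice_eq i2 ht.2.le, io ht.1.le] at this
    exact this
  have e2 : ∀ t ∈ Ioo 0 T, ∫ s in Ioo 0 t, f s
      = t * (P + ∫ s in (0 : ℝ)..t, g s) - ∫ s in (0 : ℝ)..t, s * g s := by
    intro t ht
    have hVt := vw_mono hV ht.2.le
    have h1 := end_formula ht.1 hc hVt (χ := fun s => s) contDiff_id hφ hp hd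
    have h2 : ∫ z in Ioo 0 t ×ˢ cube, wk ν u (fun s => s) φ z
        = (∫ z in Ioo 0 t ×ˢ cube, ∑ i, u z.1 z.2 i * φ z.2 i)
          + ∫ z in Ioo 0 t ×ˢ cube, z.1 * gg ν u φ z := by
      rw [← integral_add (i1.mono_set (prod_mono (Ioo_subset_Ioo_right ht.2.le) le_rfl))
        (i3.mono_set (prod_mono (Ioo_subset_Ioo_right ht.2.le) le_rfl))]
      refine integral_congr_ae (Eventually.of_forall fun z => ?_)
      show wk ν u (fun s => s) φ z = (∑ i, u z.1 z.2 i * φ z.2 i) + z.1 * gg ν u φ z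
      unfold wk gg
      rw [deriv_id'']
      ring
    rw [h2, slice_eq i1 ht.2.le, slice_eq i3 ht.2.le] at h1
    simp only [hsg, zero_mul, zero_sub] at h1
    rw [← e1 t ht, ← io ht.1.le (f := fun s => s * g s)]
    have h3 : (∫ s in Ioo 0 t, ∫ x in cube, ∑ i, u (s, x).1 (s, x).2 i * φ (s, x).2 i)
        = ∫ s in Ioo 0 t, f s := rfl
    have h4 : (∑ i, pr (cE ν t c u) i (fun x => φ x i)) = h t := rfl
    rw [h4] at h1
    linarith
  have e3 : ∀ᵐ t ∂(volume.restrict (Ioo 0 T)), HasDerivAt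
      (fun t => t * (P + ∫ s in (0 : ℝ)..t, g s) - ∫ s in (0 : ℝ)..t, s * g s) (h t) t := by
    filter_upwards [prim_ae hT hgi, prim_ae hT hsgi, ae_restrict_mem measurableSet_Ioo]
      with t h1 h2 ht
    have h3 := ((hasDerivAt_id t).mul (h1.const_add P)).sub h2
    refine h3.congr_deriv ?_
    rw [e1 t ht]
    simp only [id]
    ring
  exact ae_of_prim hT hfi e2 e3

/-- The divergence at almost every time. -/
theorem div_ae (hT : 0 < T) (hV : VW ν T c u) {φ : V → ℝ} (hφ : ContDiff ℝ ∞ φ) (hp : Per φ) :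
    ∀ᵐ s ∂(volume.restrict (Ioo 0 T)), ∫ x in cube, ∑ i, u s x i * pd i φ x = 0 := by
  have hSP : SP φ := ⟨hφ, hp⟩
  have k1 : IntegrableOn (fun z : ℝ × V => ∑ i, u z.1 z.2 i * pd i φ z.2) (Ioo 0 T ×ˢ cube) :=
    integrable_finsetSum _ fun i _ => mul_int (ψ := fun z : ℝ × V => pd i φ z.2)
      (lin_int (hV.meas i) (hV.sq i)) ((hSP.pd i).cont.comp continuous_snd)
  refine ae_of_prim (F := fun _ => 0) hT (slice_int k1) (fun t ht => ?_)
    (Eventually.of_forall fun t => hasDerivAt_const t 0)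
  rw [← slice_eq k1 ht.2.le]
  have h1 := div_all (vw_mono hV ht.2.le) (η := fun _ => 1) contDiff_const hφ hp
  simpa only [one_mul] using h1

/-- The pairing with a character. -/
theorem int_gg {f : V → ℝ} (hf : IntegrableOn f cube) (k : K3) (w : ℂ) :
    ∫ x in cube, f x * h219.WQ.gg k w x = (w * fr f k).re := by
  have h1 : Integrable (fun x => ee (-k) x * ((f x : ℝ) : ℂ)) (volume.restrict cube) :=
    h811.WQ.int_ee_mul hf (-k)
  rw [fr, fc, ← integral_const_mul]
  have h2 := (Complex.reCLM.integral_comp_comm (h1.const_mul w)).symm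
  refine Eq.trans ?_ h2.symm
  refine integral_congr_ae (Eventually.of_forall fun x => ?_)
  show f x * h219.WQ.gg k w x = (w * (ee (-k) x * ((f x : ℝ) : ℂ))).re
  rw [h219.WQ.gg, ← mul_assoc, mul_comm (w * ee (-k) x), Complex.re_ofReal_mul]

/-- The coefficients of the solution at a given time. -/
noncomputable def co (u : ℝ → V → V) (s : ℝ) (k : K3) : C3 := fun i => fr (fun x => u s x i) k

theorem prj_sum (k : K3) (v : C3) (l : Fin 3) :
    ∑ i, prj k (Pi.single l 1) i * v i = prj k v l := by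
  have h1 : kd k (Pi.single l 1) = (k l : ℂ) := by
    unfold kd
    rw [Finset.sum_eq_single l (fun j _ hj => by rw [Pi.single_eq_of_ne hj, mul_zero])
      (fun h => absurd (Finset.mem_univ l) h), Pi.single_eq_same, mul_one]
  have h2 : ∑ i, (Pi.single l 1 : C3) i * v i = v l := by
    rw [Finset.sum_eq_single l (fun j _ hj => by rw [Pi.single_eq_of_ne hj, zero_mul])
      (fun h => absurd (Finset.mem_univ l) h), Pi.single_eq_same, one_mul]
  unfold prj
  rw [h1]
  simp only [sub_mul, Finset.sum_sub_distrib, h2]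
  congr 1
  unfold kd
  rw [Finset.sum_div, Finset.mul_sum]
  refine Finset.sum_congr rfl fun i _ => ?_
  ring

/-- **At almost every time the coefficients of the solution are those of `cE`.** -/
theorem co_ae (hT : 0 < T) (hc : Dis c) (hV : VW ν T c u) :
    ∀ᵐ s ∂(volume.restrict (Ioo 0 T)), ∀ k, co u s k = cE ν s c u k := by
  rw [ae_all_iff]
  intro k
  have hi : ∀ i, IntegrableOn (fun z : ℝ × V => u z.1 z.2 i) (Ioo 0 T ×ˢ cube) := fun i =>
    lin_int (hV.meas i) (hV.sq i)
  have hd1 : ∀ w : ℂ, ∀ᵐ s ∂(volume.restrict (Ioo 0 T)),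
      ∫ x in cube, ∑ i, u s x i * pd i (h219.WQ.gg k w) x = 0 := fun w =>
    div_ae hT hV (h219.WQ.gg_smooth k w) (h219.WQ.gg_per k w)
  have hp1 : ∀ (l : Fin 3) (w : ℂ), ∀ᵐ s ∂(volume.restrict (Ioo 0 T)),
      ∫ x in cube, ∑ i, u s x i * h219.WQ.gg k (prj k (Pi.single l 1) i * w) x
        = ∑ i, pr (cE ν s c u) i (h219.WQ.gg k (prj k (Pi.single l 1) i * w)) := fun l w => by
    refine pair_ae hT hc hV (φ := fun x i => h219.WQ.gg k (prj k (Pi.single l 1) i * w) x)
      (contDiff_pi.2 fun i => h219.WQ.gg_smooth k _)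
      (fun j x => funext fun i => h219.WQ.gg_per k _ j x) fun x => ?_
    have e : ∀ i : Fin 3, pd i (fun y =>
        (fun x i => h219.WQ.gg k (prj k (Pi.single l 1) i * w) x) y i) x
        = h219.WQ.gg k (-(2 * Real.pi * Complex.I * (k i : ℂ)) * (prj k (Pi.single l 1) i * w)) x :=
      fun i => by
        show pd i (h219.WQ.gg k _) x = _
        rw [h219.WQ.pd_gg]
    rw [Finset.sum_congr rfl fun i _ => e i, h219.WQ.gg_sum]
    have e2 : ∑ i, -(2 * Real.pi * Complex.I * (k i : ℂ)) * (prj k (Pi.single l 1) i * w)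
        = -(2 * Real.pi * Complex.I * w) * kd k (prj k (Pi.single l 1)) := by
      rw [kd, Finset.mul_sum]
      exact Finset.sum_congr rfl fun i _ => by ring
    rw [e2, kd_prj, mul_zero, h219.WQ.gg, zero_mul, Complex.zero_re]
  have h1 := ae_all_iff.2 fun i => slice_ae (hi i)
  have h2 := ae_all_iff.2 fun l => hp1 l 1
  have h3 := ae_all_iff.2 fun l => hp1 l (-Complex.I)
  filter_upwards [h1, hd1 1, hd1 (-Complex.I), h2, h3] with s a1 a2 a3 a4 a5
  -- the divergence
  have key1 : ∀ w : ℂ, ∫ x in cube, ∑ i, u s x i * pd i (h219.WQ.gg k w) x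
      = (w * (-(2 * Real.pi * Complex.I) * kd k (co u s k))).re := by
    intro w
    have e : ∀ x, ∑ i, u s x i * pd i (h219.WQ.gg k w) x
        = ∑ i, u s x i * h219.WQ.gg k (-(2 * Real.pi * Complex.I * (k i : ℂ)) * w) x := fun x => by
      refine Finset.sum_congr rfl fun i _ => ?_
      rw [h219.WQ.pd_gg]
    simp only [e]
    rw [integral_finsetSum _ fun i _ => ?_]
    · rw [Finset.sum_congr rfl fun i _ => int_gg (a1 i) k _, ← Complex.re_sum]
      congr 1
      rw [kd, Finset.mul_sum, Finset.mul_sum]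
      refine Finset.sum_congr rfl fun i _ => ?_
      show _ * fr (fun x => u s x i) k = w * (-(2 * Real.pi * Complex.I) * ((k i : ℂ) * fr _ k))
      ring
    · exact (a1 i).mul_continuousOn_of_subset
        (h219.WQ.gg_smooth k _).continuous.continuousOn cube_meas cube_compact le_rfl
  rw [key1] at a2 a3
  have hkd : kd k (co u s k) = 0 := by
    have b1 : (-(2 * Real.pi * Complex.I) * kd k (co u s k)) = 0 := by
      refine Complex.ext ?_ ?_
      · rwa [one_mul] at a2
      · have : ((-Complex.I) * (-(2 * Real.pi * Complex.I) * kd k (co u s k))).re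
            = (-(2 * Real.pi * Complex.I) * kd k (co u s k)).im := by
          simp only [Complex.mul_re, Complex.neg_re, Complex.neg_im, Complex.I_re, Complex.I_im]
          ring
        rw [this] at a3
        rw [a3, Complex.zero_im]
    rcases mul_eq_zero.1 b1 with h | h
    · exfalso
      have h5 : (2 * Real.pi * Complex.I : ℂ) ≠ 0 := Complex.two_pi_I_ne_zero
      exact h5 (neg_eq_zero.1 h)
    · exact h
  have hkc : kd k (cE ν s c u k) = 0 := cE_dv hc.dv k
  -- the pairing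
  have key2 : ∀ (l : Fin 3) (w : ℂ),
      ∫ x in cube, ∑ i, u s x i * h219.WQ.gg k (prj k (Pi.single l 1) i * w) x
        = (w * co u s k l).re := by
    intro l w
    rw [integral_finsetSum _ fun i _ => ?_]
    · rw [Finset.sum_congr rfl fun i _ => int_gg (a1 i) k _, ← Complex.re_sum]
      congr 1
      have e := prj_sum k (co u s k) l
      rw [prj_of_kd_eq_zero hkd] at e
      rw [← e, Finset.mul_sum]
      refine Finset.sum_congr rfl fun i _ => ?_
      show _ * fr (fun x => u s x i) k = w * (_ * fr (fun x => u s x i) k)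
      ring
    · exact (a1 i).mul_continuousOn_of_subset
        (h219.WQ.gg_smooth k _).continuous.continuousOn cube_meas cube_compact le_rfl
  have key3 : ∀ (l : Fin 3) (w : ℂ),
      ∑ i, pr (cE ν s c u) i (h219.WQ.gg k (prj k (Pi.single l 1) i * w))
        = (w * cE ν s c u k l).re := by
    intro l w
    rw [Finset.sum_congr rfl fun i _ => h219.WQ.pr_gg (cE_herm hc.herm) k i _, ← Complex.re_sum]
    congr 1
    have e := prj_sum k (cE ν s c u k) l
    rw [prj_of_kd_eq_zero hkc] at e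
    rw [← e, Finset.mul_sum]
    refine Finset.sum_congr rfl fun i _ => ?_
    ring
  funext l
  have b4 := a4 l
  have b5 := a5 l
  rw [key2, key3] at b4 b5
  rw [one_mul, one_mul] at b4
  refine Complex.ext b4 ?_
  have h6 : ∀ z : ℂ, ((-Complex.I) * z).re = z.im := fun z => by
    simp only [Complex.mul_re, Complex.neg_re, Complex.neg_im, Complex.I_re, Complex.I_im]
    ring
  rwa [h6, h6] at b5

end Pool.Agent.Run7.h219.UQ
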