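import Pool.Agent.Run7.h811.WQ.NecA2

/-!
Uniqueness of very weak solutions in `L²((0, T); L^∞)`, part 2: Parseval's formula for square
integrable functions on the cell.
-/

set_option autoImplicit false

open MeasureTheory Set Filter Topology UnitAddTorus
open scoped ContDiff ENNReal ComplexConjugate

namespace Pool.Agent.Run7.h219.UQ

open H459R3.NS

attribute [local instance] instMeasureSpaceUnitAddCircle

/-- The projection of the torus to the cell. -/
noncomputable def sc (t : UnitAddTorus (Fin 3)) : V :=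
  (measurableEquivPiIoc (0 : V) t).1

theorem box_meas : MeasurableSet {x : V | ∀ i, x i ∈ Ioc ((0 : V) i) ((0 : V) i + 1)} :=
  MeasurableSet.univ_pi' fun _ => measurableSet_Ioc

theorem mp_sc : MeasurePreserving sc (volume : Measure (UnitAddTorus (Fin 3)))
    (volume.restrict cube) := by
  have h1 := UnitAddTorus.measurePreserving_equivPiIoc (0 : V)
  have h2 : MeasurePreserving
      (Subtype.val : {x : V // ∀ i, x i ∈ Ioc ((0 : V) i) ((0 : V) i + 1)} → V)
      (Measure.comap Subtype.val (volume : Measure V))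
      (volume.restrict {x : V | ∀ i, x i ∈ Ioc ((0 : V) i) ((0 : V) i + 1)}) :=
    measurePreserving_subtype_coe box_meas
  rw [Measure.restrict_congr_set cell_ae] at h2
  exact h2.comp h1

theorem me_sc : MeasurableEmbedding sc :=
  (MeasurableEmbedding.subtype_coe box_meas).comp
    (measurableEquivPiIoc (0 : V)).measurableEmbedding

theorem cov_sc (t : UnitAddTorus (Fin 3)) : cov (sc t) = t := by
  have h := (measurableEquivPiIoc (0 : V)).symm_apply_apply t
  exact h

/-- **Parseval's formula.** -/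
theorem pars_cube {f : V → ℂ} (hf : MemLp f 2 (volume.restrict cube)) :
    HasSum (fun k => ‖fc f k‖ ^ 2) (∫ x in cube, ‖f x‖ ^ 2) := by
  have hF : MemLp (f ∘ sc) 2 (volume : Measure (UnitAddTorus (Fin 3))) :=
    hf.comp_measurePreserving mp_sc
  have h := UnitAddTorus.hasSum_sq_mFourierCoeff (hF.toLp (f ∘ sc))
  have e1 : ∀ k, mFourierCoeff (hF.toLp (f ∘ sc)) k = fc f k := by
    intro k
    have h3 : ∫ t : UnitAddTorus (Fin 3), mFourier (-k) t • (hF.toLp (f ∘ sc)) t
        = ∫ t : UnitAddTorus (Fin 3), (fun x => ee (-k) x * f x) (sc t) := by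
      apply integral_congr_ae
      filter_upwards [hF.coeFn_toLp] with t ht
      rw [smul_eq_mul, ht]
      show _ = ee (-k) (sc t) * f (sc t)
      rw [← mFourier_cov, cov_sc]
      rfl
    rw [mFourierCoeff, h3, mp_sc.integral_comp me_sc (fun x => ee (-k) x * f x)]
    rfl
  have e2 : ∫ t, ‖(hF.toLp (f ∘ sc)) t‖ ^ 2 = ∫ x in cube, ‖f x‖ ^ 2 := by
    rw [← mp_sc.integral_comp me_sc (fun x => ‖f x‖ ^ 2)]
    refine integral_congr_ae ?_
    filter_upwards [hF.coeFn_toLp] with t ht
    rw [ht]
    rfl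
  rw [e2] at h
  refine h.congr_fun ?_
  intro k
  rw [e1]

/-- Parseval's formula, real functions. -/
theorem pars_real {f : V → ℝ} (hf : MemLp f 2 (volume.restrict cube)) :
    HasSum (fun k => ‖fr f k‖ ^ 2) (∫ x in cube, f x ^ 2) := by
  have h := pars_cube (f := fun x => (f x : ℂ)) hf.ofReal
  have e : ∫ x in cube, ‖(f x : ℂ)‖ ^ 2 = ∫ x in cube, f x ^ 2 := by
    refine integral_congr_ae (Eventually.of_forall fun x => ?_)
    show ‖(f x : ℂ)‖ ^ 2 = f x ^ 2
    rw [Complex.norm_real, Real.norm_eq_abs, sq_abs]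
  rw [e] at h
  exact h

end Pool.Agent.Run7.h219.UQ
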