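import Pool.Agent.Run7.h219.UQ.A
import Pool.Agent.Run7.h219.UQ.P
import Pool.Agent.W918.ES.GronL1

/-!
Uniqueness of very weak solutions in `L²((0, T); L^∞)`, part 3: the energy identity for the
coefficients of the difference.
-/

set_option autoImplicit false

open MeasureTheory Set Filter Topology
open scoped ContDiff ENNReal ComplexConjugate

namespace Pool.Agent.Run7.h219.UQ

open H459R3.NS Pool.Agent.Run7.h782 Pool.Agent.Run7.h782.GD Pool.Agent.Run7.h782.GS
open Pool.Agent.Run7.h782.WS Pool.Agent.Run7.h782.WQ Pool.Agent.Run7.h744.WS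
open Pool.Agent.Run7.h969.WS Pool.Agent.Run7.h219.OS Pool.Agent.Run7.h219.HP
open Pool.Agent.Run7.h782.OS Run7.h475.WS

variable {ν T : ℝ} {c : Cf} {u v : ℝ → V → V}

/-- The difference of the products. -/
noncomputable def Df (u v : ℝ → V → V) (s : ℝ) (i j : Fin 3) (k : K3) : ℂ :=
  fr (fun x => u s x i * u s x j) k - fr (fun x => v s x i * v s x j) k

/-- The contraction with the frequency. -/
noncomputable def Yf (u v : ℝ → V → V) (s : ℝ) (k : K3) : C3 := fun i =>
  ∑ j, (k j : ℂ) * Df u v s i j k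

/-- The difference of the coefficients. -/
noncomputable def Af (ν : ℝ) (c : Cf) (u v : ℝ → V → V) (s : ℝ) (k : K3) : C3 :=
  cE ν s c u k - cE ν s c v k

/-- The derivative of `Af`. -/
noncomputable def af (ν : ℝ) (u v : ℝ → V → V) (s : ℝ) (k : K3) : C3 :=
  -((lam ν k : ℂ) • prj k (co u s k - co v s k)) - (2 * Real.pi * Complex.I : ℂ) • prj k (Yf u v s k)

theorem int_pi {t : ℝ} {F : ℝ → C3} (hF : ∀ i, IntegrableOn (fun s => F s i) (Ioo 0 t)) :
    IntegrableOn F (Ioo 0 t) := by
  rw [IntegrableOn, ← memLp_one_iff_integrable]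
  exact memLp_pi_iff.2 fun i => memLp_one_iff_integrable.2 (hF i)

theorem pi_int {t : ℝ} {F : ℝ → C3} (hF : IntegrableOn F (Ioo 0 t)) (i : Fin 3) :
    (∫ s in Ioo 0 t, F s) i = ∫ s in Ioo 0 t, F s i :=
  ((ContinuousLinearMap.proj (R := ℂ) (φ := fun _ : Fin 3 => ℂ) i).integral_comp_comm hF).symm

theorem co_int (hV : VW ν T c u) (k : K3) : IntegrableOn (fun s => co u s k) (Ioo 0 T) :=
  int_pi fun i => by
    have := h219.WQ.fub_int (a := fun _ => 1) continuous_const k (h219.WQ.int_u hV i)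
    simp only [one_mul] at this
    exact this

theorem fr_int (hV : VW ν T c u) (i j : Fin 3) (k : K3) :
    IntegrableOn (fun s => fr (fun x => u s x i * u s x j) k) (Ioo 0 T) := by
  have := h219.WQ.fub_int (a := fun _ => 1) continuous_const k (h219.WQ.int_uu hV i j)
  simpa only [one_mul] using this

theorem mE_eq (hV : VW ν T c u) (k : K3) : mE T u k = ∫ s in Ioo 0 T, co u s k := by
  funext i
  rw [pi_int (co_int hV k)]
  have := h219.WQ.fub (a := fun _ => 1) continuous_const k (h219.WQ.int_u hV i)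
  simp only [one_mul] at this
  exact this

theorem sE_eq (hV : VW ν T c u) (i j : Fin 3) (k : K3) :
    sE T u i j k = ∫ s in Ioo 0 T, fr (fun x => u s x i * u s x j) k := by
  have := h219.WQ.fub (a := fun _ => 1) continuous_const k (h219.WQ.int_uu hV i j)
  simp only [one_mul] at this
  exact this

theorem Yf_int (hu : VW ν T c u) (hv : VW ν T c v) (k : K3) :
    IntegrableOn (fun s => Yf u v s k) (Ioo 0 T) :=
  int_pi fun i => integrable_finsetSum _ fun j _ =>
    ((fr_int hu i j k).sub (fr_int hv i j k)).const_mul _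

theorem af_int (hu : VW ν T c u) (hv : VW ν T c v) (k : K3) :
    IntegrableOn (fun s => af ν u v s k) (Ioo 0 T) := by
  have h1 := ((prjC k).integrable_comp ((co_int hu k).sub (co_int hv k))).smul (lam ν k : ℂ)
  have h2 := ((prjC k).integrable_comp (Yf_int hu hv k)).smul (2 * Real.pi * Complex.I : ℂ)
  exact h1.neg.sub h2

theorem Af_eq' (hu : VW ν T c u) (hv : VW ν T c v) (k : K3) :
    Af ν c u v T k = ∫ s in Ioo 0 T, af ν u v s k := by
  have i1 := co_int hu k
  have i2 := co_int hv k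
  have i3 := Yf_int hu hv k
  have e1 : ∫ s in Ioo 0 T, af ν u v s k
      = -((lam ν k : ℂ) • prj k (mE T u k - mE T v k))
        - (2 * Real.pi * Complex.I : ℂ) • prj k (∫ s in Ioo 0 T, Yf u v s k) := by
    have h1 := (prjC k).integrable_comp (i1.sub i2)
    have h2 := (prjC k).integrable_comp i3
    rw [mE_eq hu, mE_eq hv, ← integral_sub i1 i2]
    have e2 : prj k (∫ s in Ioo 0 T, (co u s k - co v s k))
        = ∫ s in Ioo 0 T, prjC k (co u s k - co v s k) :=
      ((prjC k).integral_comp_comm (i1.sub i2)).symm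
    have e3 : prj k (∫ s in Ioo 0 T, Yf u v s k) = ∫ s in Ioo 0 T, prjC k (Yf u v s k) :=
      ((prjC k).integral_comp_comm i3).symm
    rw [e2, e3, ← integral_smul, ← integral_smul, ← integral_neg]
    exact integral_sub (h1.smul (lam ν k : ℂ)).neg (h2.smul (2 * Real.pi * Complex.I : ℂ))
  have e4 : (∫ s in Ioo 0 T, Yf u v s k)
      = (fun i => ∑ j, (k j : ℂ) * sE T u i j k) - fun i => ∑ j, (k j : ℂ) * sE T v i j k := by
    funext i
    rw [pi_int i3, Pi.sub_apply, ← Finset.sum_sub_distrib]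
    have hDi : ∀ j : Fin 3, IntegrableOn (fun s => (k j : ℂ) * Df u v s i j k) (Ioo 0 T) :=
      fun j => ((fr_int hu i j k).sub (fr_int hv i j k)).const_mul _
    show ∫ s in Ioo 0 T, ∑ j, (k j : ℂ) * Df u v s i j k = _
    rw [integral_finsetSum _ fun j _ => hDi j]
    refine Finset.sum_congr rfl fun j _ => ?_
    rw [integral_const_mul, sE_eq hu, sE_eq hv, ← mul_sub]
    congr 1
    exact integral_sub (fr_int hu i j k) (fr_int hv i j k)
  rw [e1, e4]
  unfold Af cE dvr
  rw [prj_sub, prj_sub, smul_sub, smul_sub]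
  abel

theorem Af_eq (hu : VW ν T c u) (hv : VW ν T c v) (k : K3) {t : ℝ} (ht : t ∈ Icc 0 T) (i : Fin 3) :
    Af ν c u v t k i = ∫ s in (0 : ℝ)..t, af ν u v s k i := by
  have hu' := vw_mono hu ht.2
  have hv' := vw_mono hv ht.2
  rw [Af_eq' hu' hv', pi_int (af_int hu' hv' k), intervalIntegral.integral_of_le ht.1,
    integral_Ioc_eq_integral_Ioo]

/-- The square of a primitive. -/
theorem sq_prim {f : ℝ → ℝ} {t : ℝ} (hf : IntervalIntegrable f volume 0 t) :
    (∫ s in (0 : ℝ)..t, f s) ^ 2 = ∫ s in (0 : ℝ)..t, 2 * ((∫ r in (0 : ℝ)..s, f r) * f s) := by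
  have hac : AbsolutelyContinuousOnInterval (fun t => ∫ s in (0 : ℝ)..t, f s) 0 t :=
    hf.absolutelyContinuousOnInterval_intervalIntegral left_mem_uIcc
  have h1 := hac.integral_deriv_mul_eq_sub hac
  rw [intervalIntegral.integral_same, mul_zero, sub_zero] at h1
  rw [pow_two, ← h1]
  refine intervalIntegral.integral_congr_ae ?_
  filter_upwards [hf.ae_hasDerivAt_integral] with x hx hx'
  have h2 := hx (uIoc_subset_uIcc hx') 0 left_mem_uIcc
  rw [h2.deriv]
  ring

theorem n_prim {f : ℝ → ℂ} {t : ℝ} (hf : IntervalIntegrable f volume 0 t) :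
    ‖∫ s in (0 : ℝ)..t, f s‖ ^ 2
      = ∫ s in (0 : ℝ)..t, 2 * (conj (∫ r in (0 : ℝ)..s, f r) * f s).re := by
  have hr : IntervalIntegrable (fun s => (f s).re) volume 0 t := ⟨hf.1.re, hf.2.re⟩
  have hi : IntervalIntegrable (fun s => (f s).im) volume 0 t := ⟨hf.1.im, hf.2.im⟩
  have er : ∀ s ∈ uIcc 0 t, (∫ r in (0 : ℝ)..s, f r).re = ∫ r in (0 : ℝ)..s, (f r).re := by
    intro s hs
    have h1 := hf.mono_set (uIcc_subset_uIcc left_mem_uIcc hs)
    exact (intervalIntegral.intervalIntegral_re h1).symm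
  have ei : ∀ s ∈ uIcc 0 t, (∫ r in (0 : ℝ)..s, f r).im = ∫ r in (0 : ℝ)..s, (f r).im := by
    intro s hs
    have h1 := hf.mono_set (uIcc_subset_uIcc left_mem_uIcc hs)
    exact (intervalIntegral.intervalIntegral_im h1).symm
  have h2 := sq_prim hr
  have h3 := sq_prim hi
  have hacr : AbsolutelyContinuousOnInterval (fun t => ∫ s in (0 : ℝ)..t, (f s).re) 0 t :=
    hr.absolutelyContinuousOnInterval_intervalIntegral left_mem_uIcc
  have haci : AbsolutelyContinuousOnInterval (fun t => ∫ s in (0 : ℝ)..t, (f s).im) 0 t :=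
    hi.absolutelyContinuousOnInterval_intervalIntegral left_mem_uIcc
  have e0 : ‖∫ s in (0 : ℝ)..t, f s‖ ^ 2
      = (∫ s in (0 : ℝ)..t, (f s).re) ^ 2 + (∫ s in (0 : ℝ)..t, (f s).im) ^ 2 := by
    rw [← er t right_mem_uIcc, ← ei t right_mem_uIcc, ← Complex.normSq_eq_norm_sq,
      Complex.normSq_apply]
    ring
  rw [e0, h2, h3, ← intervalIntegral.integral_add]
  · refine intervalIntegral.integral_congr fun s hs => ?_
    simp only [Complex.mul_re, Complex.conj_re, Complex.conj_im, er s hs, ei s hs]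
    ring
  · exact ((hr.continuousOn_mul hacr.continuousOn).const_mul 2)
  · exact ((hi.continuousOn_mul haci.continuousOn).const_mul 2)

end Pool.Agent.Run7.h219.UQ
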