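import Pool.Agent.Run7.h219.UQ.B

/-!
Uniqueness of very weak solutions in `L²((0, T); L^∞)`, part 4: the estimates at a fixed time.
-/

set_option autoImplicit false

open MeasureTheory Set Filter Topology
open scoped ContDiff ENNReal ComplexConjugate

namespace Pool.Agent.Run7.h219.UQ

open H459R3.NS Pool.Agent.Run7.h782 Pool.Agent.Run7.h782.GD Pool.Agent.Run7.h782.GS
open Pool.Agent.Run7.h782.WS Pool.Agent.Run7.h782.WQ Pool.Agent.Run7.h744.WS
open Pool.Agent.Run7.h969.WS Pool.Agent.Run7.h219.OS Pool.Agent.Run7.h219.HP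
open Pool.Agent.Run7.h782.OS Run7.h475.WS

variable {ν T : ℝ} {c : Cf} {u v : ℝ → V → V}

/-- The squared norm. -/
noncomputable def nn (w : C3) : ℝ := ∑ i, ‖w i‖ ^ 2

theorem nn_nonneg (w : C3) : 0 ≤ nn w := Finset.sum_nonneg fun _ _ => sq_nonneg _

theorem nn_zero : nn 0 = 0 := by simp [nn]

theorem sqn (k : K3) : 0 ≤ GD.sq k := Finset.sum_nonneg fun _ _ => sq_nonneg _

/-- The squared norm of the difference of the products. -/
noncomputable def dd (u v : ℝ → V → V) (s : ℝ) (k : K3) : ℝ := ∑ i, ∑ j, ‖Df u v s i j k‖ ^ 2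

theorem dd_nonneg (u v : ℝ → V → V) (s : ℝ) (k : K3) : 0 ≤ dd u v s k :=
  Finset.sum_nonneg fun _ _ => Finset.sum_nonneg fun _ _ => sq_nonneg _

/-- The density of the energy. -/
noncomputable def ed (ν : ℝ) (c : Cf) (u v : ℝ → V → V) (s : ℝ) (k : K3) : ℝ :=
  ∑ i, 2 * (conj (Af ν c u v s k i) * af ν u v s k i).re

theorem ed_le {s : ℝ} {k : K3} (hX : co u s k - co v s k = Af ν c u v s k)
    (hk : kd k (Af ν c u v s k) = 0) :
    ed ν c u v s k ≤ -(2 * lam ν k * nn (Af ν c u v s k))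
      + 4 * Real.pi * (len k * (Real.sqrt (nn (Af ν c u v s k)) * Real.sqrt (dd u v s k))) := by
  set A : C3 := Af ν c u v s k with hA
  have e1 : ∑ i, conj (A i) * prj k (Yf u v s k) i = ∑ i, conj (A i) * Yf u v s k i := by
    have h1 : ∑ i, conj (A i) * (k i : ℂ) = 0 := by
      have h2 := congrArg conj hk
      rw [kd, map_sum, map_zero] at h2
      rw [← h2]
      refine Finset.sum_congr rfl fun i _ => ?_
      rw [map_mul, mul_comm]
      congr 1
      exact (map_intCast _ _).symm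
    have h3 : ∀ i, conj (A i) * prj k (Yf u v s k) i = conj (A i) * Yf u v s k i
        - conj (A i) * (k i : ℂ) * (kd k (Yf u v s k) / (GD.sq k : ℂ)) := fun i => by
      rw [prj]
      ring
    rw [Finset.sum_congr rfl fun i _ => h3 i, Finset.sum_sub_distrib, ← Finset.sum_mul, h1, zero_mul,
      sub_zero]
  have e2 : ∑ i, conj (A i) * af ν u v s k i
      = -((lam ν k * nn A : ℝ) : ℂ) - 2 * Real.pi * Complex.I * ∑ i, conj (A i) * Yf u v s k i := by
    rw [← e1]
    have h1 : ∀ i, conj (A i) * af ν u v s k i = -((lam ν k : ℂ) * ((‖A i‖ ^ 2 : ℝ) : ℂ))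
        - 2 * Real.pi * Complex.I * (conj (A i) * prj k (Yf u v s k) i) := by
      intro i
      have h2 : af ν u v s k i = -((lam ν k : ℂ) * A i)
          - (2 * Real.pi * Complex.I : ℂ) * prj k (Yf u v s k) i := by
        show (-((lam ν k : ℂ) • prj k (co u s k - co v s k))
          - (2 * Real.pi * Complex.I : ℂ) • prj k (Yf u v s k)) i = _
        rw [hX, prj_of_kd_eq_zero hk]
        rfl
      have h3 : conj (A i) * A i = ((‖A i‖ ^ 2 : ℝ) : ℂ) := by
        rw [mul_comm, Complex.mul_conj, Complex.normSq_eq_norm_sq]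
      rw [h2, ← h3]
      ring
    rw [Finset.sum_congr rfl fun i _ => h1 i, Finset.sum_sub_distrib, Finset.sum_neg_distrib,
      ← Finset.mul_sum, ← Finset.mul_sum, nn]
    push_cast
    rfl
  have e3 : ed ν c u v s k = 2 * (∑ i, conj (A i) * af ν u v s k i).re := by
    rw [ed, ← Finset.mul_sum, Complex.re_sum]
  -- the nonlinear term
  have h1 : ‖∑ i, conj (A i) * Yf u v s k i‖
      ≤ len k * (Real.sqrt (nn A) * Real.sqrt (dd u v s k)) := by
    have h2 : ∀ i, ‖Yf u v s k i‖ ≤ len k * Real.sqrt (∑ j, ‖Df u v s i j k‖ ^ 2) := by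
      intro i
      have h3 : ‖Yf u v s k i‖ ≤ ∑ j, |(k j : ℝ)| * ‖Df u v s i j k‖ := by
        refine (norm_sum_le _ _).trans (Finset.sum_le_sum fun j _ => ?_)
        rw [norm_mul]
        refine mul_le_mul_of_nonneg_right (le_of_eq ?_) (norm_nonneg _)
        rw [← Complex.ofReal_intCast, Complex.norm_real, Real.norm_eq_abs]
      refine h3.trans ((Real.sum_mul_le_sqrt_mul_sqrt _ _ _).trans (le_of_eq ?_))
      congr 1
      rw [len, GD.sq]
      congr 1
      exact Finset.sum_congr rfl fun j _ => sq_abs _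
    calc ‖∑ i, conj (A i) * Yf u v s k i‖
        ≤ ∑ i, ‖A i‖ * (len k * Real.sqrt (∑ j, ‖Df u v s i j k‖ ^ 2)) := by
          refine (norm_sum_le _ _).trans (Finset.sum_le_sum fun i _ => ?_)
          rw [norm_mul, RCLike.norm_conj]
          exact mul_le_mul_of_nonneg_left (h2 i) (norm_nonneg _)
      _ = len k * ∑ i, ‖A i‖ * Real.sqrt (∑ j, ‖Df u v s i j k‖ ^ 2) := by
          rw [Finset.mul_sum]
          exact Finset.sum_congr rfl fun i _ => by ring
      _ ≤ len k * (Real.sqrt (nn A) * Real.sqrt (dd u v s k)) := by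
          refine mul_le_mul_of_nonneg_left ?_ (GD.len_nonneg k)
          refine (Real.sum_mul_le_sqrt_mul_sqrt _ _ _).trans (le_of_eq ?_)
          rw [nn, dd]
          congr 2
          refine Finset.sum_congr rfl fun i _ => ?_
          exact Real.sq_sqrt (Finset.sum_nonneg fun _ _ => sq_nonneg _)
  rw [e3, e2]
  set Z : ℂ := ∑ i, conj (A i) * Yf u v s k i with hZ
  have h2 : (-((lam ν k * nn A : ℝ) : ℂ) - 2 * Real.pi * Complex.I * Z).re
      ≤ -(lam ν k * nn A) + 2 * Real.pi * ‖Z‖ := by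
    rw [Complex.sub_re, Complex.neg_re, Complex.ofReal_re]
    have h3 : -(2 * Real.pi * Complex.I * Z).re ≤ ‖2 * Real.pi * Complex.I * Z‖ :=
      (neg_le_abs _).trans (Complex.abs_re_le_norm _)
    have h4 : ‖(2 * Real.pi * Complex.I * Z : ℂ)‖ = 2 * Real.pi * ‖Z‖ := by
      rw [norm_mul, norm_mul, norm_mul, Complex.norm_I, Complex.norm_real, Real.norm_eq_abs,
        abs_of_pos Real.pi_pos]
      norm_num
    rw [h4] at h3
    linarith
  have h5 : 2 * Real.pi * ‖Z‖
      ≤ 2 * Real.pi * (len k * (Real.sqrt (nn A) * Real.sqrt (dd u v s k))) :=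
    mul_le_mul_of_nonneg_left h1 (by positivity)
  linarith

/-- Integrability of a slice. -/
theorem slc {G : ℝ} {f : V → ℝ} (hm : IntegrableOn f cube)
    (hb : ∀ᵐ x ∂(volume.restrict cube), |f x| ≤ G) : MemLp f 2 (volume.restrict cube) := by
  have := cube_finite
  exact MemLp.of_bound hm.aestronglyMeasurable G hb

variable {G s : ℝ}

/-- The energy density in space. -/
noncomputable def Ys (u v : ℝ → V → V) (s : ℝ) : ℝ := ∫ x in cube, ∑ i, (u s x i - v s x i) ^ 2

theorem fr_sub' {f h : V → ℝ} (hf : IntegrableOn f cube) (hh : IntegrableOn h cube) (k : K3) :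
    fr (fun x => f x - h x) k = fr f k - fr h k := by
  have h1 := h811.WQ.int_ee_mul hf (-k)
  have h2 := h811.WQ.int_ee_mul hh (-k)
  rw [fr, fr, fr, fc, fc, fc, ← integral_sub h1 h2]
  refine integral_congr_ae (Eventually.of_forall fun x => ?_)
  show ee (-k) x * ((f x - h x : ℝ) : ℂ) = ee (-k) x * (f x : ℂ) - ee (-k) x * (h x : ℂ)
  push_cast
  ring

theorem Y_sum (hu : ∀ i, IntegrableOn (fun x => u s x i) cube)
    (hv : ∀ i, IntegrableOn (fun x => v s x i) cube)
    (hub : ∀ i, ∀ᵐ x ∂(volume.restrict cube), |u s x i| ≤ G)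
    (hvb : ∀ i, ∀ᵐ x ∂(volume.restrict cube), |v s x i| ≤ G) :
    HasSum (fun k => nn (co u s k - co v s k)) (Ys u v s) := by
  have hm : ∀ i, MemLp (fun x => u s x i - v s x i) 2 (volume.restrict cube) := fun i =>
    (slc (hu i) (hub i)).sub (slc (hv i) (hvb i))
  have h1 : ∀ i, HasSum (fun k => ‖(co u s k - co v s k) i‖ ^ 2)
      (∫ x in cube, (u s x i - v s x i) ^ 2) := fun i => by
    refine (pars_real (hm i)).congr_fun fun k => ?_
    rw [fr_sub' (hu i) (hv i)]
    rfl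
  have h2 := hasSum_sum fun i (_ : i ∈ (Finset.univ : Finset (Fin 3))) => h1 i
  have e : Ys u v s = ∑ i, ∫ x in cube, (u s x i - v s x i) ^ 2 := by
    unfold Ys
    exact integral_finsetSum _ fun i _ => (hm i).integrable_sq
  rw [e]
  exact h2

theorem D_sum (hG : 0 ≤ G) (hu : ∀ i, IntegrableOn (fun x => u s x i) cube)
    (hv : ∀ i, IntegrableOn (fun x => v s x i) cube)
    (hub : ∀ i, ∀ᵐ x ∂(volume.restrict cube), |u s x i| ≤ G)
    (hvb : ∀ i, ∀ᵐ x ∂(volume.restrict cube), |v s x i| ≤ G) (B : Finset K3) :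
    ∑ k ∈ B, dd u v s k ≤ 12 * G ^ 2 * Ys u v s := by
  have := cube_finite
  have hum : ∀ i, MemLp (fun x => u s x i) 2 (volume.restrict cube) := fun i =>
    slc (hu i) (hub i)
  have hvm : ∀ i, MemLp (fun x => v s x i) 2 (volume.restrict cube) := fun i =>
    slc (hv i) (hvb i)
  have hm : ∀ i, MemLp (fun x => u s x i - v s x i) 2 (volume.restrict cube) := fun i =>
    (hum i).sub (hvm i)
  have hp : ∀ i j, IntegrableOn (fun x => u s x i * u s x j) cube := fun i j =>
    (hum i).integrable_mul (hum j)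
  have hq : ∀ i j, IntegrableOn (fun x => v s x i * v s x j) cube := fun i j =>
    (hvm i).integrable_mul (hvm j)
  have hpq : ∀ i j, MemLp (fun x => u s x i * u s x j - v s x i * v s x j) 2
      (volume.restrict cube) := fun i j =>
    slc (G := 2 * G ^ 2) ((hp i j).sub (hq i j)) (by
      filter_upwards [hub i, hub j, hvb i, hvb j] with x b1 b2 b3 b4
      refine (abs_sub _ _).trans ?_
      rw [abs_mul, abs_mul]
      have h1 := mul_le_mul b1 b2 (abs_nonneg _) hG
      have h2 := mul_le_mul b3 b4 (abs_nonneg _) hG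
      nlinarith)
  have hYi : ∀ i, Integrable (fun x => (u s x i - v s x i) ^ 2) (volume.restrict cube) := fun i =>
    (hm i).integrable_sq
  set y : Fin 3 → ℝ := fun i => ∫ x in cube, (u s x i - v s x i) ^ 2 with hy
  have e : Ys u v s = ∑ i, y i := integral_finsetSum _ fun i _ => hYi i
  have h1 : ∀ i j, ∑ k ∈ B, ‖Df u v s i j k‖ ^ 2 ≤ 2 * G ^ 2 * (y i + y j) := by
    intro i j
    have e1 : ∀ k, Df u v s i j k = fr (fun x => u s x i * u s x j - v s x i * v s x j) k :=
      fun k => (fr_sub' (hp i j) (hq i j) k).symm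
    simp only [e1]
    refine (h811.WQ.bessel_cube (hpq i j) B).trans ?_
    have e2 : 2 * G ^ 2 * (y i + y j)
        = ∫ x in cube, 2 * G ^ 2 * ((u s x i - v s x i) ^ 2 + (u s x j - v s x j) ^ 2) := by
      rw [integral_const_mul, integral_add (hYi i) (hYi j)]
    rw [e2]
    refine integral_mono_ae (hpq i j).integrable_sq (((hYi i).add (hYi j)).const_mul _) ?_
    filter_upwards [hub i, hvb j] with x b1 b2
    show (u s x i * u s x j - v s x i * v s x j) ^ 2
      ≤ 2 * G ^ 2 * ((u s x i - v s x i) ^ 2 + (u s x j - v s x j) ^ 2)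
    have e3 : u s x i * u s x j - v s x i * v s x j
        = u s x i * (u s x j - v s x j) + v s x j * (u s x i - v s x i) := by ring
    rw [e3]
    have a1 : (u s x i) ^ 2 ≤ G ^ 2 := sq_le_sq' (by linarith [neg_abs_le (u s x i)])
      ((le_abs_self _).trans b1)
    have a2 : (v s x j) ^ 2 ≤ G ^ 2 := sq_le_sq' (by linarith [neg_abs_le (v s x j)])
      ((le_abs_self _).trans b2)
    have a3 : (u s x i * (u s x j - v s x j) + v s x j * (u s x i - v s x i)) ^ 2
        ≤ 2 * ((u s x i) ^ 2 * (u s x j - v s x j) ^ 2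
          + (v s x j) ^ 2 * (u s x i - v s x i) ^ 2) := by
      nlinarith [sq_nonneg (u s x i * (u s x j - v s x j) - v s x j * (u s x i - v s x i))]
    have a4 := mul_le_mul_of_nonneg_right a1 (sq_nonneg (u s x j - v s x j))
    have a5 := mul_le_mul_of_nonneg_right a2 (sq_nonneg (u s x i - v s x i))
    nlinarith
  have h2 : ∑ k ∈ B, dd u v s k = ∑ i, ∑ j, ∑ k ∈ B, ‖Df u v s i j k‖ ^ 2 := by
    unfold dd
    rw [Finset.sum_comm]
    exact Finset.sum_congr rfl fun i _ => Finset.sum_comm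
  rw [h2, e]
  refine (Finset.sum_le_sum fun i _ => Finset.sum_le_sum fun j _ => h1 i j).trans (le_of_eq ?_)
  simp only [Fin.sum_univ_three]
  ring

/-- The estimate at a fixed time. -/
theorem ed_sum (hν : 0 < ν) (hG : 0 ≤ G) (hX : ∀ k, co u s k - co v s k = Af ν c u v s k)
    (hk : ∀ k, kd k (Af ν c u v s k) = 0) (h0 : Af ν c u v s 0 = 0)
    (hu : ∀ i, IntegrableOn (fun x => u s x i) cube)
    (hv : ∀ i, IntegrableOn (fun x => v s x i) cube)
    (hub : ∀ i, ∀ᵐ x ∂(volume.restrict cube), |u s x i| ≤ G)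
    (hvb : ∀ i, ∀ᵐ x ∂(volume.restrict cube), |v s x i| ≤ G) (B : Finset K3) :
    ∑ k ∈ B, ed ν c u v s k / GD.sq k
      ≤ 6 / ν * G ^ 2 * (∑ k ∈ B, nn (Af ν c u v s k) / GD.sq k)
        + 8 * Real.pi ^ 2 * ν * (Ys u v s - ∑ k ∈ B, nn (Af ν c u v s k)) := by
  set a : K3 → ℝ := fun k => nn (Af ν c u v s k) / GD.sq k with ha
  have hY0 : 0 ≤ Ys u v s := integral_nonneg fun x => Finset.sum_nonneg fun _ _ => sq_nonneg _
  have ha0 : ∀ k, 0 ≤ a k := fun k => div_nonneg (nn_nonneg _) (sqn k)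
  have h1 : ∀ k, ed ν c u v s k / GD.sq k ≤ -(8 * Real.pi ^ 2 * ν * nn (Af ν c u v s k))
      + 4 * Real.pi * (Real.sqrt (a k) * Real.sqrt (dd u v s k)) := by
    intro k
    by_cases hk0 : k = 0
    · subst hk0
      have e : GD.sq (0 : K3) = 0 := by simp [GD.sq]
      rw [e, div_zero, h0, nn_zero]
      have : a 0 = 0 := by rw [ha]; simp only [e, div_zero]
      rw [this]
      simp
    · have hsq : 0 < GD.sq k := sq_pos' hk0
      have hlen : len k ^ 2 = GD.sq k := len_sq k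
      have hl0 : 0 < len k := lt_of_lt_of_le one_pos (one_le_len hk0)
      rw [div_le_iff₀ hsq]
      refine (ed_le (hX k) (hk k)).trans (le_of_eq ?_)
      have e1 : Real.sqrt (a k) = Real.sqrt (nn (Af ν c u v s k)) / len k := by
        rw [ha]
        simp only
        rw [Real.sqrt_div (nn_nonneg _), ← hlen, Real.sqrt_sq hl0.le]
      rw [e1, lam, ← hlen]
      field_simp
      ring
  refine (Finset.sum_le_sum fun k _ => h1 k).trans ?_
  rw [Finset.sum_add_distrib, Finset.sum_neg_distrib, ← Finset.mul_sum, ← Finset.mul_sum]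
  have h2 : ∑ k ∈ B, Real.sqrt (a k) * Real.sqrt (dd u v s k)
      ≤ Real.sqrt (∑ k ∈ B, a k) * Real.sqrt (12 * G ^ 2 * Ys u v s) := by
    refine (Real.sum_mul_le_sqrt_mul_sqrt _ _ _).trans ?_
    have e1 : ∀ k, Real.sqrt (a k) ^ 2 = a k := fun k => Real.sq_sqrt (ha0 k)
    have e2 : ∀ k, Real.sqrt (dd u v s k) ^ 2 = dd u v s k := fun k =>
      Real.sq_sqrt (dd_nonneg u v s k)
    simp only [e1, e2]
    exact mul_le_mul_of_nonneg_left (Real.sqrt_le_sqrt (D_sum hG hu hv hub hvb B))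
      (Real.sqrt_nonneg _)
  have hS : 0 ≤ ∑ k ∈ B, a k := Finset.sum_nonneg fun k _ => ha0 k
  have h3 : 4 * Real.pi * (Real.sqrt (∑ k ∈ B, a k) * Real.sqrt (12 * G ^ 2 * Ys u v s))
      ≤ 6 / ν * G ^ 2 * (∑ k ∈ B, a k) + 8 * Real.pi ^ 2 * ν * Ys u v s := by
    have hR : 0 ≤ 6 / ν * G ^ 2 * (∑ k ∈ B, a k) + 8 * Real.pi ^ 2 * ν * Ys u v s := by positivity
    refine (le_abs_self _).trans (abs_le_of_sq_le_sq ?_ hR)
    have e1 : (4 * Real.pi * (Real.sqrt (∑ k ∈ B, a k) * Real.sqrt (12 * G ^ 2 * Ys u v s))) ^ 2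
        = 16 * Real.pi ^ 2 * ((∑ k ∈ B, a k) * (12 * G ^ 2 * Ys u v s)) := by
      rw [mul_pow, mul_pow, mul_pow, Real.sq_sqrt hS, Real.sq_sqrt (by positivity)]
      ring
    rw [e1]
    set S := ∑ k ∈ B, a k
    have e2 : 16 * Real.pi ^ 2 * (S * (12 * G ^ 2 * Ys u v s))
        = 4 * ((6 / ν * G ^ 2 * S) * (8 * Real.pi ^ 2 * ν * Ys u v s)) := by
      field_simp
      ring
    rw [e2]
    nlinarith [sq_nonneg (6 / ν * G ^ 2 * S - 8 * Real.pi ^ 2 * ν * Ys u v s)]
  have h4 := mul_le_mul_of_nonneg_left h2 (show (0 : ℝ) ≤ 4 * Real.pi by positivity)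
  linarith

end Pool.Agent.Run7.h219.UQ
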