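import Pool.Agent.Run7.h219.UQ.C

/-!
Uniqueness of very weak solutions in `L²((0, T); L^∞)`, part 5: the theorem.
-/

set_option autoImplicit false

open MeasureTheory Set Filter Topology
open scoped ContDiff ENNReal ComplexConjugate

namespace Pool.Agent.Run7.h219.UQ

open H459R3.NS Pool.Agent.Run7.h782 Pool.Agent.Run7.h782.GD Pool.Agent.Run7.h782.GS
open Pool.Agent.Run7.h782.WS Pool.Agent.Run7.h782.WQ Pool.Agent.Run7.h744.WS
open Pool.Agent.Run7.h969.WS Pool.Agent.Run7.h219.OS Pool.Agent.Run7.h219.HP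
open Pool.Agent.Run7.h782.OS Run7.h475.WS

variable {ν T : ℝ} {c : Cf} {u v : ℝ → V → V}

theorem af_ii (hu : VW ν T c u) (hv : VW ν T c v) (k : K3) {t : ℝ} (ht : t ∈ Icc 0 T) (i : Fin 3) :
    IntervalIntegrable (fun s => af ν u v s k i) volume 0 t := by
  have h1 : IntegrableOn (fun s => af ν u v s k i) (Ioo 0 T) :=
    (ContinuousLinearMap.proj (R := ℂ) (φ := fun _ : Fin 3 => ℂ) i).integrable_comp (af_int hu hv k)
  rw [intervalIntegrable_iff_integrableOn_Ioo_of_le ht.1]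
  exact h1.mono_set (Ioo_subset_Ioo_right ht.2)

theorem Af_cont (hT : 0 < T) (hu : VW ν T c u) (hv : VW ν T c v) (k : K3) (i : Fin 3) :
    ContinuousOn (fun t => Af ν c u v t k i) (Icc 0 T) := by
  have h1 := intervalIntegral.continuousOn_primitive_interval'
    (af_ii hu hv k (right_mem_Icc.2 hT.le) i) (left_mem_uIcc)
  rw [uIcc_of_le hT.le] at h1
  exact h1.congr fun t ht => Af_eq hu hv k ht i

theorem nn_cont (hT : 0 < T) (hu : VW ν T c u) (hv : VW ν T c v) (k : K3) :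
    ContinuousOn (fun t => nn (Af ν c u v t k)) (Icc 0 T) :=
  continuousOn_finsetSum _ fun i _ => (Af_cont hT hu hv k i).norm.pow 2

theorem ed_ii (hT : 0 < T) (hu : VW ν T c u) (hv : VW ν T c v) (k : K3) {t : ℝ}
    (ht : t ∈ Icc 0 T) : IntervalIntegrable (fun s => ed ν c u v s k) volume 0 t := by
  have h1 : ∀ i : Fin 3, IntervalIntegrable
      (fun s => 2 * (conj (Af ν c u v s k i) * af ν u v s k i).re) volume 0 t := by
    intro i
    have h2 : ContinuousOn (fun s => conj (Af ν c u v s k i)) (uIcc 0 t) := by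
      rw [uIcc_of_le ht.1]
      exact Complex.continuous_conj.comp_continuousOn
        ((Af_cont hT hu hv k i).mono (Icc_subset_Icc_right ht.2))
    have h3 := (af_ii hu hv k ht i).continuousOn_mul h2
    exact (IntervalIntegrable.const_mul ⟨h3.1.re, h3.2.re⟩ 2)
  have h2 : (fun s => ed ν c u v s k)
      = ∑ i : Fin 3, fun s => 2 * (conj (Af ν c u v s k i) * af ν u v s k i).re := by
    funext s
    rw [Finset.sum_apply]
    rfl
  rw [h2]
  exact IntervalIntegrable.sum _ fun i _ => h1 i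

theorem nn_prim (hT : 0 < T) (hu : VW ν T c u) (hv : VW ν T c v) (k : K3) {t : ℝ}
    (ht : t ∈ Icc 0 T) : nn (Af ν c u v t k) = ∫ s in (0 : ℝ)..t, ed ν c u v s k := by
  have h1 : ∀ i, ‖Af ν c u v t k i‖ ^ 2
      = ∫ s in (0 : ℝ)..t, 2 * (conj (Af ν c u v s k i) * af ν u v s k i).re := by
    intro i
    rw [Af_eq hu hv k ht i, n_prim (af_ii hu hv k ht i)]
    refine intervalIntegral.integral_congr fun s hs => ?_
    rw [uIcc_of_le ht.1] at hs
    rw [Af_eq hu hv k ⟨hs.1, hs.2.trans ht.2⟩ i]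
  unfold nn ed
  rw [intervalIntegral.integral_finsetSum]
  · exact Finset.sum_congr rfl fun i _ => h1 i
  · intro i _
    have h2 : ContinuousOn (fun s => conj (Af ν c u v s k i)) (uIcc 0 t) := by
      rw [uIcc_of_le ht.1]
      exact Complex.continuous_conj.comp_continuousOn
        ((Af_cont hT hu hv k i).mono (Icc_subset_Icc_right ht.2))
    have h3 := (af_ii hu hv k ht i).continuousOn_mul h2
    exact (IntervalIntegrable.const_mul ⟨h3.1.re, h3.2.re⟩ 2)

/-- The integrability of the energy. -/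
theorem Ys_int (hu : VW ν T c u) (hv : VW ν T c v) : IntegrableOn (fun s => Ys u v s) (Ioo 0 T) := by
  have h1 : ∀ i, MemLp (fun z : ℝ × V => u z.1 z.2 i - v z.1 z.2 i) 2
      (volume.restrict (Ioo 0 T ×ˢ cube)) := fun i =>
    ((memLp_two_iff_integrable_sq (hu.meas i)).2 (hu.sq i)).sub
      ((memLp_two_iff_integrable_sq (hv.meas i)).2 (hv.sq i))
  have h2 : IntegrableOn (fun z : ℝ × V => ∑ i, (u z.1 z.2 i - v z.1 z.2 i) ^ 2)
      (Ioo 0 T ×ˢ cube) := integrable_finsetSum _ fun i _ => (h1 i).integrable_sq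
  exact slice_int h2

/-- **Uniqueness.** Two very weak solutions in `L²((0, T); L^∞)` with the same initial value
agree. -/
theorem uniq (hν : 0 < ν) (hT : 0 < T) (hc : Dis c) (hu : VW ν T c u) (hv : VW ν T c v)
    {g : ℝ → ℝ} (hg : IntegrableOn (fun t => g t ^ 2) (Ioo 0 T))
    (hub : ∀ i, ∀ᵐ z ∂(volume.restrict (Ioo 0 T ×ˢ cube)), |u z.1 z.2 i| ≤ g z.1)
    (hvb : ∀ i, ∀ᵐ z ∂(volume.restrict (Ioo 0 T ×ˢ cube)), |v z.1 z.2 i| ≤ g z.1) :
    ∀ᵐ z ∂(volume.restrict (Ioo 0 T ×ˢ cube)), u z.1 z.2 = v z.1 z.2 := by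
  have hslice : ∀ {w : ℝ → V → V}, (∀ i, ∀ᵐ z ∂(volume.restrict (Ioo 0 T ×ˢ cube)),
      |w z.1 z.2 i| ≤ g z.1) → ∀ᵐ s ∂(volume.restrict (Ioo 0 T)),
      ∀ i, ∀ᵐ x ∂(volume.restrict cube), |w s x i| ≤ |g s| := by
    intro w hw
    rw [ae_all_iff]
    intro i
    have h1 := hw i
    rw [Measure.volume_eq_prod, ← Measure.prod_restrict] at h1
    filter_upwards [Measure.ae_ae_of_ae_prod h1] with s h2
    filter_upwards [h2] with x h3
    exact h3.trans (le_abs_self _)
  have hint : ∀ {w : ℝ → V → V}, VW ν T c w → ∀ᵐ s ∂(volume.restrict (Ioo 0 T)),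
      ∀ i, IntegrableOn (fun x => w s x i) cube := by
    intro w hw
    rw [ae_all_iff]
    intro i
    exact slice_ae (w := fun z : ℝ × V => w z.1 z.2 i) (h219.WQ.int_u hw i)
  have hz : ∀ s, Af ν c u v s 0 = 0 := fun s => by rw [Af, cE_zero, cE_zero, sub_self]
  have hd : ∀ s k, kd k (Af ν c u v s k) = 0 := fun s k => by
    have h1 : kd k (Af ν c u v s k) = kd k (cE ν s c u k) - kd k (cE ν s c v k) := by
      simp only [kd, Af, Pi.sub_apply, mul_sub, Finset.sum_sub_distrib]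
    rw [h1, cE_dv hc.dv k, cE_dv hc.dv k, sub_zero]
  -- the coefficients at almost every time
  have hgood : ∀ᵐ s ∂(volume.restrict (Ioo 0 T)),
      (∀ k, co u s k - co v s k = Af ν c u v s k) ∧
      HasSum (fun k => nn (Af ν c u v s k)) (Ys u v s) ∧
      ∀ B : Finset K3, ∑ k ∈ B, ed ν c u v s k / GD.sq k
        ≤ 6 / ν * g s ^ 2 * (∑ k ∈ B, nn (Af ν c u v s k) / GD.sq k)
          + 8 * Real.pi ^ 2 * ν * (Ys u v s - ∑ k ∈ B, nn (Af ν c u v s k)) := by
    filter_upwards [co_ae hT hc hu, co_ae hT hc hv, hslice hub, hslice hvb, hint hu, hint hv]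
      with s h1 h2 h3 h4 h5 h6
    have h7 : ∀ k, co u s k - co v s k = Af ν c u v s k := fun k => by rw [h1 k, h2 k, Af]
    refine ⟨h7, ?_, fun B => ?_⟩
    · have h8 := Y_sum h5 h6 h3 h4
      simpa only [h7] using h8
    · have h8 := ed_sum hν (abs_nonneg (g s)) h7 (hd s) (hz s) h5 h6 h3 h4 B
      rwa [sq_abs] at h8
  have hcontI : ∀ k, IntegrableOn (fun s => nn (Af ν c u v s k)) (Ioo 0 T) := fun k =>
    ((nn_cont hT hu hv k).integrableOn_compact isCompact_Icc).mono_set Ioo_subset_Icc_self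
  have hYI := Ys_int hu hv
  -- the remainder
  set R : Finset K3 → ℝ := fun B => ∫ s in Ioo 0 T, (Ys u v s - ∑ k ∈ B, nn (Af ν c u v s k)) with hR
  have hRe : ∀ B, R B = (∫ s in Ioo 0 T, Ys u v s) - ∑ k ∈ B, ∫ s in Ioo 0 T, nn (Af ν c u v s k) := by
    intro B
    rw [hR]
    simp only
    rw [integral_sub hYI (integrable_finsetSum _ fun k _ => hcontI k),
      integral_finsetSum _ fun k _ => hcontI k]
  have hR0 : ∀ B, 0 ≤ R B := fun B => by
    refine integral_nonneg_of_ae ?_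
    filter_upwards [hgood] with s hs
    exact sub_nonneg.2 (sum_le_hasSum B (fun k _ => nn_nonneg _) hs.2.1)
  have hRt : Tendsto R atTop (𝓝 0) := by
    have h1 : Summable fun k => ∫ s in Ioo 0 T, ‖nn (Af ν c u v s k)‖ := by
      refine summable_of_sum_le (c := ∫ s in Ioo 0 T, Ys u v s)
        (fun k => integral_nonneg fun s => norm_nonneg _) fun B => ?_
      have h2 : ∀ k s, ‖nn (Af ν c u v s k)‖ = nn (Af ν c u v s k) := fun k s =>
        Real.norm_of_nonneg (nn_nonneg _)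
      simp only [h2]
      have h3 := hR0 B
      rw [hRe] at h3
      linarith
    have h2 := hasSum_integral_of_summable_integral_norm (fun k => hcontI k) h1
    have h3 : ∫ s in Ioo 0 T, ∑' k, nn (Af ν c u v s k) = ∫ s in Ioo 0 T, Ys u v s :=
      integral_congr_ae (by filter_upwards [hgood] with s hs using hs.2.1.tsum_eq)
    rw [h3] at h2
    have h4 := tendsto_const_nhds (x := ∫ s in Ioo 0 T, Ys u v s).sub h2
    rw [sub_self] at h4
    exact h4.congr fun B => (hRe B).symm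
  -- the functions vanish
  have hβ : ∀ t ∈ Icc 0 T, IntervalIntegrable (fun s => 6 / ν * g s ^ 2) volume 0 t := fun t ht =>
    ii_of (hg.const_mul (6 / ν)) ht
  have hβ0 : ∀ s, 0 ≤ 6 / ν * g s ^ 2 := fun s => by positivity
  set E : Finset K3 → ℝ → ℝ := fun B t => ∑ k ∈ B, nn (Af ν c u v t k) / GD.sq k with hE
  have hEc : ∀ B, ContinuousOn (E B) (Icc 0 T) := fun B =>
    continuousOn_finsetSum _ fun k _ => (nn_cont hT hu hv k).div_const _
  have hEle : ∀ B, ∀ t ∈ Icc 0 T, E B t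
      ≤ 8 * Real.pi ^ 2 * ν * R B + ∫ s in (0 : ℝ)..t, 6 / ν * g s ^ 2 * E B s := by
    intro B t ht
    have hsub : Ioo 0 t ⊆ Ioo 0 T := Ioo_subset_Ioo_right ht.2
    have e1 : E B t = ∫ s in (0 : ℝ)..t, ∑ k ∈ B, ed ν c u v s k / GD.sq k := by
      rw [intervalIntegral.integral_finsetSum fun k _ => (ed_ii hT hu hv k ht).div_const _]
      refine Finset.sum_congr rfl fun k _ => ?_
      rw [intervalIntegral.integral_div, nn_prim hT hu hv k ht]
    have i1 : IntegrableOn (fun s => ∑ k ∈ B, ed ν c u v s k / GD.sq k) (Ioo 0 t) := by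
      refine integrable_finsetSum _ fun k _ => ?_
      have := (ed_ii hT hu hv k ht).div_const (GD.sq k)
      rwa [intervalIntegrable_iff_integrableOn_Ioo_of_le ht.1] at this
    have i2 : IntegrableOn (fun s => 6 / ν * g s ^ 2 * E B s) (Ioo 0 t) := by
      have h1 : ContinuousOn (E B) (uIcc 0 t) := by
        rw [uIcc_of_le ht.1]
        exact (hEc B).mono (Icc_subset_Icc_right ht.2)
      have := (hβ t ht).mul_continuousOn h1
      rwa [intervalIntegrable_iff_integrableOn_Ioo_of_le ht.1] at this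
    have i3 : IntegrableOn (fun s => 8 * Real.pi ^ 2 * ν
        * (Ys u v s - ∑ k ∈ B, nn (Af ν c u v s k))) (Ioo 0 T) :=
      (hYI.sub (integrable_finsetSum _ fun k _ => hcontI k)).const_mul _
    rw [e1, ← io ht.1, ← io ht.1]
    have h1 : ∫ s in Ioo 0 t, ∑ k ∈ B, ed ν c u v s k / GD.sq k
        ≤ ∫ s in Ioo 0 t, (6 / ν * g s ^ 2 * E B s
          + 8 * Real.pi ^ 2 * ν * (Ys u v s - ∑ k ∈ B, nn (Af ν c u v s k))) := by
      refine integral_mono_ae i1 (i2.add (i3.mono_set hsub)) ?_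
      have h2 := ae_restrict_of_ae_restrict_of_subset hsub hgood
      filter_upwards [h2] with s hs
      exact hs.2.2 B
    refine h1.trans ?_
    rw [integral_add i2 (i3.mono_set hsub), add_comm]
    refine add_le_add ?_ le_rfl
    have h2 : ∫ s in Ioo 0 T, 8 * Real.pi ^ 2 * ν * (Ys u v s - ∑ k ∈ B, nn (Af ν c u v s k))
        = 8 * Real.pi ^ 2 * ν * R B := integral_const_mul _ _
    rw [← h2]
    refine setIntegral_mono_set i3 ?_ hsub.eventuallyLE
    filter_upwards [hgood] with s hs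
    exact mul_nonneg (by positivity) (sub_nonneg.2 (sum_le_hasSum B (fun k _ => nn_nonneg _) hs.2.1))
  have hA : ∀ t ∈ Icc 0 T, ∀ k, Af ν c u v t k = 0 := by
    intro t ht k
    by_cases hk : k = 0
    · subst hk
      exact hz t
    have hsq : 0 < GD.sq k := sq_pos' hk
    have h1 : ∀ B : Finset K3, k ∈ B → nn (Af ν c u v t k) / GD.sq k
        ≤ 8 * Real.pi ^ 2 * ν * R B * Real.exp (∫ s in (0 : ℝ)..t, 6 / ν * g s ^ 2) := by
      intro B hB
      have h2 := Pool.Agent.W918.ES.gronL1 ht.1 ((hEc B).mono (Icc_subset_Icc_right ht.2))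
        (hβ t ht) hβ0 fun s hs => hEle B s ⟨hs.1, hs.2.trans ht.2⟩
      refine le_trans ?_ h2
      exact Finset.single_le_sum (f := fun k => nn (Af ν c u v t k) / GD.sq k)
        (fun k _ => div_nonneg (nn_nonneg _) (sqn k)) hB
    have h2 : Tendsto (fun B => 8 * Real.pi ^ 2 * ν * R B
        * Real.exp (∫ s in (0 : ℝ)..t, 6 / ν * g s ^ 2)) atTop (𝓝 0) := by
      have := (hRt.const_mul (8 * Real.pi ^ 2 * ν)).mul_const
        (Real.exp (∫ s in (0 : ℝ)..t, 6 / ν * g s ^ 2))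
      simpa using this
    have h3 : nn (Af ν c u v t k) / GD.sq k ≤ 0 := by
      refine ge_of_tendsto h2 ?_
      filter_upwards [eventually_ge_atTop ({k} : Finset K3)] with B hB
      exact h1 B (Finset.singleton_subset_iff.1 hB)
    have h4 : nn (Af ν c u v t k) ≤ 0 := by
      by_contra h
      exact absurd h3 (not_le.2 (div_pos (not_le.1 h) hsq))
    funext i
    have h5 : ‖Af ν c u v t k i‖ ^ 2 ≤ nn (Af ν c u v t k) :=
      Finset.single_le_sum (f := fun i => ‖Af ν c u v t k i‖ ^ 2) (fun i _ => sq_nonneg _)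
        (Finset.mem_univ i)
    have h6 : ‖Af ν c u v t k i‖ ^ 2 = 0 := le_antisymm (h5.trans h4) (sq_nonneg _)
    exact norm_eq_zero.1 (pow_eq_zero_iff two_ne_zero |>.1 h6)
  -- conclusion
  have hY : ∀ᵐ s ∂(volume.restrict (Ioo 0 T)), Ys u v s = 0 := by
    filter_upwards [hgood, ae_restrict_mem measurableSet_Ioo] with s hs hs'
    have h1 : HasSum (fun k => nn (Af ν c u v s k)) 0 := by
      have : (fun k => nn (Af ν c u v s k)) = fun _ => 0 := funext fun k => by
        rw [hA s ⟨hs'.1.le, hs'.2.le⟩ k, nn_zero]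
      rw [this]
      exact hasSum_zero
    exact hs.2.1.unique h1
  have h1 : ∀ i, MemLp (fun z : ℝ × V => u z.1 z.2 i - v z.1 z.2 i) 2
      (volume.restrict (Ioo 0 T ×ˢ cube)) := fun i =>
    ((memLp_two_iff_integrable_sq (hu.meas i)).2 (hu.sq i)).sub
      ((memLp_two_iff_integrable_sq (hv.meas i)).2 (hv.sq i))
  have h2 : IntegrableOn (fun z : ℝ × V => ∑ i, (u z.1 z.2 i - v z.1 z.2 i) ^ 2)
      (Ioo 0 T ×ˢ cube) := integrable_finsetSum _ fun i _ => (h1 i).integrable_sq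
  have h3 : ∫ z in Ioo 0 T ×ˢ cube, ∑ i, (u z.1 z.2 i - v z.1 z.2 i) ^ 2 = 0 := by
    have := slice_eq (w := fun z : ℝ × V => ∑ i, (u z.1 z.2 i - v z.1 z.2 i) ^ 2) h2 (le_refl T)
    rw [this]
    have h4 : ∀ᵐ s ∂(volume.restrict (Ioo 0 T)),
        ∫ x in cube, ∑ i, (u s x i - v s x i) ^ 2 = 0 := hY
    rw [integral_congr_ae h4]
    simp
  have h4 := (integral_eq_zero_iff_of_nonneg
    (fun z => Finset.sum_nonneg fun _ _ => sq_nonneg _) h2).1 h3
  filter_upwards [h4] with z hz'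
  have h5 : ∑ i, (u z.1 z.2 i - v z.1 z.2 i) ^ 2 = 0 := hz'
  ext i
  have h6 := (Finset.sum_eq_zero_iff_of_nonneg fun i _ => sq_nonneg (u z.1 z.2 i - v z.1 z.2 i)).1
    h5 i (Finset.mem_univ i)
  exact sub_eq_zero.1 (pow_eq_zero_iff two_ne_zero |>.1 h6)

end Pool.Agent.Run7.h219.UQ
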